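import Mathlib
import Pool.Agent.Y947.RL2.All2
import Pool.Agent.Y947.RL2.Alg
import Pool.Agent.Y433.RL.Hgt
import Pool.Agent.Y858.RL.Rep
import Pool.Agent.Y235.RL.Cnj
import Pool.Agent.Y932.RL.Tow
import Pool.Agent.U218.PQ.Cx

/-!
# Rémond's inequality in full strength for numbers with bounded relative mean

All numbers are complex numbers, all fields are subfields of `ℂ`. There is an absolute constant
`c > 0` with the following property. Let `K` be a number field, `L = K(μ_∞)` and let `Γ` be any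
subgroup of `L*`, of finite or infinite rank. Then `L(Γ_div)` is an abelian extension of `L`. Let
`z` be an algebraic integer, not `0` and not a root of unity. Its minimal polynomial over the field
`ℚ(μ_∞)` of all roots of unity is `F(ω₀, X)` for some monic `F ∈ ℤ[T][X]` and some primitive `m`-th
root of unity `ω₀`. Let `M` be the mean, over the primitive `m`-th roots of unity `ω`, of the mean of
`log⁺ |F(ω, x)|` over the unit circle `|x| = 1` (it depends on `z` only, and is bounded in terms of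
the length of `F`). Then

`h(z) ≥ c / ([K : ℚ] (1 + M) ^ 6 b D)`, where `D = D_Γ(z) = [ℚ(Γ_div, z) : ℚ(Γ_div)]` and
`b = [L(z) ∩ L(Γ_div) : L]`.

In particular, if `L(z)` contains no abelian extension of `L` besides `L`, then Rémond's inequality
`h(z) ≥ c' / D_Γ(z)` holds for `z`, without any loss, for all groups `Γ` in `L*` at once, with
`c' = c / ([K : ℚ] (1 + M) ^ 6)`.

Method. `L(Γ_div)` is an abelian extension of `L` (Kummer theory), so the degree of `z` over `L` is at
most `b D`, by Galois theory. The case of the trivial group `Γ` is the starting result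
`MP_187c26_nt.RelativeLehmer`, whose library (by the authors named there) is used here.
-/

set_option autoImplicit false

open Polynomial

namespace Pool.Agent.Results.MP_f61260_nt.BoundedRelativeMean

/-- the field `ℚ(μ_∞) ⊆ ℂ` generated by all roots of unity -/
noncomputable def QAb : IntermediateField ℚ ℂ :=
  IntermediateField.adjoin ℚ {z : ℂ | ∃ n : ℕ, 0 < n ∧ z ^ n = 1}

/-- the polynomial `F(ω, X)`, for `F ∈ ℤ[T][X]` -/
noncomputable def spec {A : Type*} [CommRing A] (ω : A) (F : ℤ[X][X]) : A[X] :=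
  F.map (aeval ω : ℤ[X] →ₐ[ℤ] A).toRingHom

/-- the absolute logarithmic Weil height of an algebraic integer `z`: the logarithm of the Mahler
measure of its minimal polynomial over `ℤ`, divided by the degree -/
noncomputable def height (z : ℂ) : ℝ :=
  Real.log ((minpoly ℤ z).map (Int.castRingHom ℂ)).mahlerMeasure / (minpoly ℤ z).natDegree

/-- the mean over the primitive `m`-th roots of unity `ω` of the mean of `log⁺ |F(ω, x)|` over the
unit circle -/
noncomputable def logPlus (m : ℕ) (F : ℤ[X][X]) : ℝ :=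
  (∑ ω ∈ primitiveRoots m ℂ,
    Real.circleAverage (fun x : ℂ => Real.posLog ‖(spec ω F).eval x‖) 0 1) / Nat.totient m

/-- the minimal polynomial of `z` over `ℚ(μ_∞)` is `F(ω₀, X)`, where `ω₀` is a primitive `m`-th root
of unity and `F ∈ ℤ[T][X]` is monic -/
def Represents (m : ℕ) (ω₀ : QAb) (F : ℤ[X][X]) (z : ℂ) : Prop :=
  0 < m ∧ IsPrimitiveRoot ω₀ m ∧ F.Monic ∧ minpoly QAb z = spec ω₀ F

/-- `y` lies in the division group of `Γ`: a positive power of `y` is an element of `Γ` -/
def InDivisionGroup (Γ : Subgroup ℂˣ) (y : ℂ) : Prop :=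
  ∃ n : ℕ, 0 < n ∧ ∃ g ∈ Γ, y ^ n = ((g : ℂˣ) : ℂ)

/-- `D_Γ(z)`, the degree of `z` over the field `ℚ(Γ_div)` generated by the division group -/
noncomputable def divisionDegree (Γ : Subgroup ℂˣ) (z : ℂ) : ℕ :=
  (minpoly (IntermediateField.adjoin ℚ {y | InDivisionGroup Γ y}) z).natDegree

/-- `L(Γ_div)` -/
noncomputable def divisionFieldOver (L : IntermediateField ℚ ℂ) (Γ : Subgroup ℂˣ) :
    IntermediateField L ℂ :=
  IntermediateField.adjoin L {y | InDivisionGroup Γ y}

/-- `L(z)` -/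
noncomputable def simpleField (L : IntermediateField ℚ ℂ) (z : ℂ) : IntermediateField L ℂ :=
  IntermediateField.adjoin L {z}

/-- `[L(z) ∩ L(Γ_div) : L]` -/
noncomputable def commonDegree (L : IntermediateField ℚ ℂ) (Γ : Subgroup ℂˣ) (z : ℂ) : ℕ :=
  Module.finrank L (↥(simpleField L z ⊓ divisionFieldOver L Γ))

/-- `T` is an abelian extension of `L`: it is Galois with a commutative Galois group -/
def IsAbelianExtension {L : IntermediateField ℚ ℂ} (T : IntermediateField L ℂ) : Prop :=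
  IsGalois L T ∧ ∀ σ τ : T ≃ₐ[L] T, σ * τ = τ * σ

/-- `L(z)` contains no abelian extension of `L` besides `L` -/
def NoAbelianSubextension (L : IntermediateField ℚ ℂ) (z : ℂ) : Prop :=
  ∀ T : IntermediateField L ℂ, T ≤ simpleField L z → IsAbelianExtension T → T = ⊥

/-- **Rémond's inequality in full strength for numbers with bounded relative mean.** -/
theorem result : ∃ c : ℝ, 0 < c ∧ ∀ K : IntermediateField ℚ ℂ, FiniteDimensional ℚ K →
    ∀ Γ : Subgroup ℂˣ, (∀ g ∈ Γ, ((g : ℂˣ) : ℂ) ∈ K ⊔ QAb) →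
      IsAbelianExtension (divisionFieldOver (K ⊔ QAb) Γ) ∧
      ∀ z : ℂ, IsIntegral ℤ z → z ≠ 0 → (∀ n : ℕ, 0 < n → z ^ n ≠ 1) →
        (∃ (m : ℕ) (ω₀ : QAb) (F : ℤ[X][X]), Represents m ω₀ F z) ∧
        ∀ (m : ℕ) (ω₀ : QAb) (F : ℤ[X][X]), Represents m ω₀ F z →
          c / (Module.finrank ℚ K * (1 + logPlus m F) ^ 6) /
            (commonDegree (K ⊔ QAb) Γ z * divisionDegree Γ z) ≤ height z ∧
          (NoAbelianSubextension (K ⊔ QAb) z →
            c / (Module.finrank ℚ K * (1 + logPlus m F) ^ 6) / divisionDegree Γ z ≤ height z) := by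
  obtain ⟨c, hc, h⟩ := Y947.RL2.alg Y947.RL2.t_fin (Y433.RL.hgt_mean Y65.RL.tr) Y858.RL.rep
    Y235.RL.Cnj.cnj (fun K _ z hz => Y932.RL.Tow.tow K z hz)
  refine ⟨c, hc, fun K hK Γ hΓ => ?_⟩
  have hroot : ∀ (ζ : ℂ) (r : ℕ), 0 < r → ζ ^ r = 1 → ζ ∈ K ⊔ QAb := by
    intro ζ r hr hζ
    have h1 : ζ ∈ QAb := IntermediateField.subset_adjoin ℚ _ ⟨r, hr, hζ⟩
    exact (le_sup_right : QAb ≤ K ⊔ QAb) h1
  refine ⟨(Pool.Agent.U218.PQ.degree_le_cx (K ⊔ QAb) hroot Γ hΓ 0 isIntegral_zero).1,
    fun z hz h0 hr => ?_⟩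
  obtain ⟨h1, h2⟩ := h z hz h0 hr
  refine ⟨?_, ?_⟩
  · obtain ⟨m, ω₀, F, hm, hω, hF, heq⟩ := h1
    exact ⟨m, ω₀, F, hm, hω, hF, heq.symm⟩
  · rintro m ω₀ F ⟨hm, hω, hF, heq⟩
    have h3 : c / Module.finrank ℚ K / (1 + logPlus m F) ^ 6 ≤
        (minpoly (K ⊔ QAb : IntermediateField ℚ ℂ) z).natDegree * height z :=
      h2 m ω₀ F hm hω hF heq.symm K
    rw [div_div] at h3
    obtain ⟨-, hab, h4⟩ := Pool.Agent.U218.PQ.degree_le_cx (K ⊔ QAb) hroot Γ hΓ z hz.tower_top
    have hdpos : 0 < (minpoly (K ⊔ QAb : IntermediateField ℚ ℂ) z).natDegree :=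
      minpoly.natDegree_pos hz.tower_top
    have hx0 : 0 ≤ c / (Module.finrank ℚ K * (1 + logPlus m F) ^ 6) := by
      have : 0 ≤ (1 + logPlus m F) ^ 6 := by positivity
      positivity
    have hh0 : 0 ≤ height z := by
      by_contra hcon
      push Not at hcon
      have : ((minpoly (K ⊔ QAb : IntermediateField ℚ ℂ) z).natDegree : ℝ) * height z < 0 :=
        mul_neg_of_pos_of_neg (by exact_mod_cast hdpos) hcon
      linarith
    have key : ∀ b D : ℕ,
        (minpoly (K ⊔ QAb : IntermediateField ℚ ℂ) z).natDegree ≤ b * D →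
        c / (Module.finrank ℚ K * (1 + logPlus m F) ^ 6) / (b * D) ≤ height z := by
      intro b D hbD
      have hbD' : ((minpoly (K ⊔ QAb : IntermediateField ℚ ℂ) z).natDegree : ℝ) ≤ b * D := by
        exact_mod_cast hbD
      have hpos : (0 : ℝ) < b * D := by
        have : (0 : ℝ) < (minpoly (K ⊔ QAb : IntermediateField ℚ ℂ) z).natDegree := by
          exact_mod_cast hdpos
        linarith
      rw [div_le_iff₀ hpos, mul_comm (height z)]
      exact h3.trans (mul_le_mul_of_nonneg_right hbD' hh0)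
    refine ⟨key _ _ h4, fun hno => ?_⟩
    have h5 := hno (simpleField (K ⊔ QAb) z ⊓ divisionFieldOver (K ⊔ QAb) Γ) inf_le_left
      (hab _ inf_le_right)
    have h6 : Module.finrank (K ⊔ QAb : IntermediateField ℚ ℂ)
        (↥(simpleField (K ⊔ QAb) z ⊓ divisionFieldOver (K ⊔ QAb) Γ)) = 1 := by
      rw [h5]
      exact IntermediateField.finrank_bot
    have h7 : (minpoly (K ⊔ QAb : IntermediateField ℚ ℂ) z).natDegree ≤
        Module.finrank (K ⊔ QAb : IntermediateField ℚ ℂ)
          (↥(simpleField (K ⊔ QAb) z ⊓ divisionFieldOver (K ⊔ QAb) Γ)) * divisionDegree Γ z := h4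
    rw [h6] at h7
    have h8 := key 1 _ h7
    rwa [Nat.cast_one, one_mul] at h8

end Pool.Agent.Results.MP_f61260_nt.BoundedRelativeMean
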