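import Mathlib
import Pool.Agent.TH53.BL11

set_option autoImplicit false

/-!
# Rémond's inequality for numbers with a norm, to some intermediate field, that is a sum of few radicals

All fields are subfields of `AlgebraicClosure ℚ`; subgroups of the multiplicative group are
subgroups of the unit group of `AlgebraicClosure ℚ`.
-/

namespace Pool.Agent.Results.MP_f61260_nt.IntermediateNorms

open Pool.Agent.H58P (Qb ht)
open Pool.Agent.W237.RK
open Pool.Agent.TH53.RP
open Pool.Agent.TH53.BL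

/-- `β` lies in the division group of `Γ`: a positive power of `β` is an element of `Γ` -/
def InDivisionGroup (Γ : Subgroup (AlgebraicClosure ℚ)ˣ) (β : AlgebraicClosure ℚ) : Prop :=
  ∃ n : ℕ, 0 < n ∧ ∃ g ∈ Γ, β ^ n = (g : AlgebraicClosure ℚ)

/-- the field generated by the division group of `Γ` -/
noncomputable def divisionField (Γ : Subgroup (AlgebraicClosure ℚ)ˣ) :
    IntermediateField ℚ (AlgebraicClosure ℚ) :=
  IntermediateField.adjoin ℚ {y | InDivisionGroup Γ y}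

/-- the degree of `α` over the field `F` -/
noncomputable def degree (F : IntermediateField ℚ (AlgebraicClosure ℚ)) (α : AlgebraicClosure ℚ) :
    ℕ :=
  (minpoly F α).natDegree

/-- the constant coefficient of the minimal polynomial of `ξ` over the field `F`, which is up to the
sign the norm of `ξ`, that is, the product of the conjugates of `ξ` over `F` -/
noncomputable def norm (F : IntermediateField ℚ (AlgebraicClosure ℚ)) (ξ : AlgebraicClosure ℚ) :
    AlgebraicClosure ℚ :=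
  ((minpoly F ξ).coeff 0 : F)

/-- the field generated by all roots of unity -/
noncomputable def cyclotomicClosure : IntermediateField ℚ (AlgebraicClosure ℚ) :=
  IntermediateField.adjoin ℚ {y | ∃ n : ℕ, 0 < n ∧ y ^ n = 1}

/-- `θ` is a radical over `E`: a positive power of `θ` lies in `E` -/
def IsRadical (E : IntermediateField cyclotomicClosure (AlgebraicClosure ℚ))
    (θ : AlgebraicClosure ℚ) : Prop :=
  ∃ m : ℕ, 0 < m ∧ θ ^ m ∈ E

/-- `α` is the quotient of a sum of `k` radicals over `E` by a nonzero sum of `l` radicals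
over `E` -/
def IsQuotientOfSumsOfRadicals
    (E : IntermediateField cyclotomicClosure (AlgebraicClosure ℚ)) (k l : ℕ)
    (α : AlgebraicClosure ℚ) : Prop :=
  ∃ (θ : Fin k → AlgebraicClosure ℚ) (θ' : Fin l → AlgebraicClosure ℚ),
    (∀ j, IsRadical E (θ j)) ∧ (∀ j, IsRadical E (θ' j)) ∧ ∑ j, θ' j ≠ 0 ∧
    α = (∑ j, θ j) / ∑ j, θ' j

/-- the dependence of the constants on the number `n = k + l` of the radicals and the degree `D` -/
noncomputable def bound (A D n : ℕ) : ℝ :=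
  1 / ((A : ℝ) * ((D : ℝ) * ((2 : ℝ) ^ (n ^ 2 + 1) * (2 * (n.factorial : ℝ))) ^ (n * (n + 1))) ^ A)

lemma bound_eq (A D n : ℕ) : bound A D n = lowc A (D * B2 n) := by
  rw [bound, lowc, B2, one_div]
  push_cast
  rfl

lemma lowc_le {A d N : ℕ} (hd : 0 < d) (hN : 0 < N) : lowc (A * d ^ A) N ≤ lowc A (N * d) := by
  rcases Nat.eq_zero_or_pos A with rfl | hA
  · simp [lowc]
  have h1 : A ≤ A * d ^ A := Nat.le_mul_of_pos_right _ (pow_pos hd _)
  have h2 : A * (N * d) ^ A ≤ (A * d ^ A) * N ^ (A * d ^ A) := by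
    calc A * (N * d) ^ A = (A * d ^ A) * N ^ A := by rw [mul_pow]; ring
      _ ≤ (A * d ^ A) * N ^ (A * d ^ A) := Nat.mul_le_mul_left _ (Nat.pow_le_pow_right hN h1)
  have h3 : (0 : ℕ) < A * (N * d) ^ A := by positivity
  unfold lowc
  apply inv_anti₀
  · exact_mod_cast h3
  · exact_mod_cast h2

lemma translate (Γ : Subgroup Qbˣ) (hΓfg : Γ.FG) : ∃ A : ℕ, 0 < A ∧
    ∀ (k l D : ℕ) (E : IntermediateField cyc Qb), FiniteDimensional cyc E →
      Module.finrank cyc E ≤ D → ∀ (θ : Fin k → Qb) (θ' : Fin l → Qb),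
      (∀ j, ∃ m : ℕ, 0 < m ∧ θ j ^ m ∈ E) → (∀ j, ∃ m : ℕ, 0 < m ∧ θ' j ^ m ∈ E) →
      ∀ α : Qb, α * ∑ j, θ' j = ∑ j, θ j → ∑ j, θ' j ≠ 0 → α ≠ 0 → ¬ DivG Γ α →
      ∀ γ : Qb, DivG Γ γ →
      lowc A (D * B2 (k + l)) / ((minpoly (divF Γ) α).natDegree : ℝ) ≤ ht (α / γ) := by
  obtain ⟨S, hS⟩ := id hΓfg
  set T : Set Qb := (fun u : Qbˣ => (u : Qb)) '' (S : Set Qbˣ) with hT
  have hTf : Finite T := (S.finite_toSet.image _)
  set C : IntermediateField cyc Qb := IntermediateField.adjoin cyc T with hC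
  have hCfd : FiniteDimensional cyc C :=
    IntermediateField.finiteDimensional_adjoin fun x _ =>
      (Pool.Agent.H58P.qb_isIntegral x).tower_top
  have hΓC : ∀ g ∈ Γ, (g : Qb) ∈ C := by
    intro g hg
    rw [← hS] at hg
    induction hg using Subgroup.closure_induction with
    | mem x hx => exact IntermediateField.subset_adjoin _ _ ⟨x, hx, rfl⟩
    | one => exact one_mem C
    | mul x y _ _ hx hy => rw [Units.val_mul]; exact mul_mem hx hy
    | inv x _ hx => rw [Units.val_inv_eq_inv_val]; exact inv_mem hx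
  have hd : 0 < Module.finrank cyc C := Module.finrank_pos
  obtain ⟨A, hA, hmain⟩ := main3 Γ hΓfg
  refine ⟨A * Module.finrank cyc C ^ A, by positivity, ?_⟩
  intro k l D E hE hD θ θ' hθ hθ' α hα hQ hα0 hnd γ hγ
  have hγ0 : γ ≠ 0 := DivG.ne_zero hγ
  have hD0 : 0 < D := lt_of_lt_of_le Module.finrank_pos hD
  have hfin : FiniteDimensional cyc (E ⊔ C : IntermediateField cyc Qb) :=
    IntermediateField.finiteDimensional_sup E C
  have hle : Module.finrank cyc (E ⊔ C : IntermediateField cyc Qb) ≤ D * Module.finrank cyc C :=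
    (IntermediateField.finrank_sup_le E C).trans (Nat.mul_le_mul_right _ hD)
  have hγC : ∃ n : ℕ, 0 < n ∧ γ ^ n ∈ C := by
    obtain ⟨n, hn, g, hg, h⟩ := hγ
    exact ⟨n, hn, h ▸ hΓC g hg⟩
  obtain ⟨n, hn, hγn⟩ := hγC
  have h1 := hmain k l (D * Module.finrank cyc C) (E ⊔ C) hfin hle (fun j => θ j / γ) θ'
    (fun j => by
      obtain ⟨m, hm, h⟩ := hθ j
      refine ⟨m * n, Nat.mul_pos hm hn, ?_⟩
      rw [div_pow, pow_mul (θ j), mul_comm m n, pow_mul γ]
      exact div_mem (pow_mem ((le_sup_left : E ≤ E ⊔ C) h) _)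
        (pow_mem ((le_sup_right : C ≤ E ⊔ C) hγn) _))
    (fun j => by
      obtain ⟨m, hm, h⟩ := hθ' j
      exact ⟨m, hm, (le_sup_left : E ≤ E ⊔ C) h⟩)
    (α / γ) (by rw [← Finset.sum_div, ← hα]; ring) hQ (div_ne_zero hα0 hγ0)
    (fun h => hnd (by
      have := h.mul hγ
      rwa [div_mul_cancel₀ _ hγ0] at this))
  have hγF : γ ∈ divF Γ := IntermediateField.subset_adjoin _ _ hγ
  rw [← orb_ncard, orb_div_ncard hγ0 hγF, orb_ncard] at h1
  refine le_trans ?_ h1
  apply div_le_div_of_nonneg_right _ (Nat.cast_nonneg _)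
  rw [mul_right_comm]
  exact lowc_le hd (Nat.mul_pos hD0 (B2_pos _))

lemma zpow_sum' {ι : Type} (x : Qb) (hx : x ≠ 0) (S : Finset ι) (e : ι → ℤ) :
    x ^ ∑ i ∈ S, e i = ∏ i ∈ S, x ^ e i := by
  classical
  induction S using Finset.induction_on with
  | empty => simp
  | insert i S hi ih => rw [Finset.prod_insert hi, Finset.sum_insert hi, zpow_add₀ hx, ih]

lemma div_zpow' {Γ : Subgroup Qbˣ} {γ : Qb} (h : DivG Γ γ) (s : ℤ) : DivG Γ (γ ^ s) := by
  obtain ⟨n, hn, g, hg, h1⟩ := h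
  refine ⟨n, hn, g ^ s, zpow_mem hg s, ?_⟩
  rw [← zpow_natCast, ← zpow_mul, mul_comm, zpow_mul, zpow_natCast, h1, Units.val_zpow_eq_zpow_val]

lemma key (Γ : Subgroup Qbˣ) (hΓ : Γ.FG) :
    ∃ A : ℕ, 0 < A ∧ ∀ (k l D : ℕ) (E : IntermediateField cyc Qb), FiniteDimensional cyc E →
      Module.finrank cyc E ≤ D → ∀ F : GF,
      (∀ g ∈ Γ, (g : Qb) ∈ F) → ∀ ξ : Qb, ξ ≠ 0 →
      ∀ (ι : Type) (s : Finset ι) (σ : ι → Aut), (∀ i ∈ s, Fix F (σ i)) → ∀ (e : ι → ℤ)
        (ω η : Qb), Tor ω → η = ω * ∏ i ∈ s, σ i ξ ^ e i →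
      ∀ (θ : Fin k → Qb) (θ' : Fin l → Qb),
      (∀ j, ∃ m : ℕ, 0 < m ∧ θ j ^ m ∈ E) → (∀ j, ∃ m : ℕ, 0 < m ∧ θ' j ^ m ∈ E) →
      ∑ j, θ' j ≠ 0 → η = (∑ j, θ j) / ∑ j, θ' j →
        ¬ DivG Γ η → ∀ γ : Qb, DivG Γ γ →
        lowc A (D * B2 (k + l)) / ((minpoly (divF Γ) η).natDegree : ℝ) ≤
          (∑ i ∈ s, |(e i : ℝ)|) * ht (ξ / γ) := by
  classical
  obtain ⟨A, hA, hmain⟩ := translate Γ hΓ
  refine ⟨A, hA, ?_⟩
  intro k l D E hE hD F hF ξ hξ ι s σ hσ e ω η hω hη θ θ' hθ hθ' hQ hquot hnd γ hγ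
  have hγ0 : γ ≠ 0 := DivG.ne_zero hγ
  have hσξ : ∀ i, σ i ξ ≠ 0 := fun i => (map_ne_zero (σ i)).mpr hξ
  have hη0 : η ≠ 0 := by
    rw [hη]
    exact mul_ne_zero hω.ne_zero (Finset.prod_ne_zero_iff.2 fun i _ => zpow_ne_zero _ (hσξ i))
  have h1 := hmain k l D E hE hD θ θ' hθ hθ' η (by rw [hquot, div_mul_cancel₀ _ hQ]) hQ hη0 hnd
    (γ ^ ∑ i ∈ s, e i) (div_zpow' hγ _)
  refine h1.trans ?_
  have h2 : η / γ ^ ∑ i ∈ s, e i = ω * ∏ i ∈ s, (σ i ξ / γ) ^ e i := by
    rw [hη, zpow_sum' γ hγ0 s e]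
    simp_rw [_root_.div_zpow]
    rw [Finset.prod_div_distrib, mul_div_assoc]
  rw [h2, ht_tor_mul hω]
  refine (Pool.Agent.H58R.ht_prod_le _ _).trans ?_
  rw [Finset.sum_mul]
  refine Finset.sum_le_sum fun i hi => ?_
  rw [Pool.Agent.H58R.ht_zpow _ (div_ne_zero (hσξ i) hγ0)]
  refine mul_le_mul_of_nonneg_left (le_of_eq ?_) (abs_nonneg _)
  have h3 : Tor (σ i γ / γ) := by
    obtain ⟨n, hn, g, hg, h4⟩ := hγ
    refine ⟨n, hn, ?_⟩
    rw [div_pow, ← map_pow, h4, hσ i hi _ (hF g hg), div_self]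
    exact Units.ne_zero g
  have h5 : σ i ξ / γ = (σ i γ / γ) * σ i (ξ / γ) := by
    have h6 : σ i γ ≠ 0 := (map_ne_zero (σ i)).mpr hγ0
    rw [map_div₀]
    field_simp
  rw [h5, ht_tor_mul h3, Pool.Agent.H58B.ht_conj]

/-- the product of the degrees -/
lemma card_mul_le (L F : GF) (hLF : L ≤ F) (ξ η : Qb) (hF : η ∈ F)
    (hη : η ∈ L ⊔ IntermediateField.adjoin ℚ {ξ}) :
    (orb L η).ncard * (orb F ξ).ncard ≤ (orb L ξ).ncard := by
  classical
  have hch : ∀ z : Qb, ∃ τ : Aut, z ∈ orb L η → Fix L τ ∧ τ η = z := by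
    intro z
    by_cases hz : z ∈ orb L η
    · obtain ⟨τ, h1, h2⟩ := hz
      exact ⟨τ, fun _ => ⟨h1, h2⟩⟩
    · exact ⟨1, fun h => absurd h hz⟩
  choose τ hτ using hch
  have hfix : ∀ ρ : Aut, Fix L ρ → ρ ξ = ξ → ρ η = η := by
    intro ρ h1 h2
    refine fix_sup h1 (τ := ρ) (E := IntermediateField.adjoin ℚ {ξ}) ?_ η hη
    intro x hx
    induction hx using IntermediateField.adjoin_induction with
    | mem x hx => rw [Set.mem_singleton_iff.1 hx, h2]
    | algebraMap x => exact ρ.commutes x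
    | add x y _ _ hx hy => rw [map_add, hx, hy]
    | inv x _ hx => rw [map_inv₀, hx]
    | mul x y _ _ hx hy => rw [map_mul, hx, hy]
  rw [← Set.ncard_prod]
  refine Set.ncard_le_ncard_of_injOn (fun w : Qb × Qb => τ w.1 w.2) ?_ ?_ (orb_finite L ξ)
  · rintro ⟨z, y⟩ ⟨hz, σ, hσ, rfl⟩
    exact ⟨τ z * σ, fix_mul (hτ z hz).1 (fix_mono hLF hσ), rfl⟩
  · rintro ⟨z, y⟩ ⟨hz, hy⟩ ⟨z', y'⟩ ⟨hz', hy'⟩ heq
    have heq' : τ z y = τ z' y' := heq
    obtain ⟨σ, hσ, h1⟩ := hy
    obtain ⟨σ', hσ', h1'⟩ := hy'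
    simp only at hz hz' h1 h1'
    have h2 : (τ z * σ) ξ = (τ z' * σ') ξ := by
      rw [AlgEquiv.mul_apply, AlgEquiv.mul_apply, h1, h1']
      exact heq'
    have h3 : ((τ z' * σ')⁻¹ * (τ z * σ)) ξ = ξ := by
      rw [AlgEquiv.mul_apply, h2, inv_apply_self]
    have h4 := hfix _ (fix_mul (fix_inv (fix_mul (hτ z' hz').1 (fix_mono hLF hσ')))
      (fix_mul (hτ z hz).1 (fix_mono hLF hσ))) h3
    have h5 : (τ z * σ) η = (τ z' * σ') η := by
      have h5' : ((τ z' * σ')⁻¹ * (τ z * σ)) η = (τ z' * σ')⁻¹ ((τ z * σ) η) := rfl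
      have : (τ z' * σ') (((τ z' * σ')⁻¹ * (τ z * σ)) η) = (τ z' * σ') η := congrArg _ h4
      rw [h5', apply_inv_self] at this
      exact this
    rw [AlgEquiv.mul_apply, AlgEquiv.mul_apply, hσ η hF, hσ' η hF, (hτ z hz).2, (hτ z' hz').2] at h5
    subst h5
    have h6 : y = y' := (τ z).injective heq'
    rw [h6]

/-- **Rémond's inequality for numbers with a norm to an intermediate field that is a quotient of sums
of few radicals.** Let `Γ` be a finitely generated subgroup of `ℚ̄*`. There is a positive integer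
`A`, depending only on `Γ`, such that the following holds. Let `E` be an extension of degree at most
`D` of the field generated by all roots of unity, let `ξ` be a nonzero algebraic number, and put
`n = k + l` and `c = 1 / (A (D B)^A)`, `B = (2^(n^2 + 1) 2 n!)^(n (n + 1))`.

Let `F` be any field that contains `Γ` and let `η` be a product of powers `σ_i(ξ)^(e_i)` of
conjugates of `ξ` over `F`. If `η` is the quotient of a sum of `k` radicals over `E` by a sum of `l`
radicals over `E` and does not lie in the division group of `Γ`, then for all `γ` in the division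
group of `Γ` (for example `γ = 1`) the height of `ξ / γ` is at least `c` divided by the product of
`∑ |e_i|` and the degree of `η` over `ℚ(Γ_div)`.

In particular, let `F` be any field with `ℚ(Γ_div) ⊆ F ⊆ ℚ(Γ_div, ξ)`, or more generally any field that
contains `ℚ(Γ_div)` and for which the constant coefficient `η` of the minimal polynomial of `ξ` over `F`
belongs to `ℚ(Γ_div, ξ)`. If `η` is the quotient of a sum of `k` radicals over `E` by a sum of `l`
radicals over `E` and does not lie in the division group of `Γ`, then for all `γ` in the division group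
of `Γ` the height of `ξ / γ` is at least `c` divided by the degree of `ξ` over `ℚ(Γ_div)`. -/
theorem result :
    ∀ (Γ : Subgroup (AlgebraicClosure ℚ)ˣ), Γ.FG → ∃ A : ℕ, 0 < A ∧
      ∀ (k l D : ℕ) (E : IntermediateField cyclotomicClosure (AlgebraicClosure ℚ)),
        FiniteDimensional cyclotomicClosure E → Module.finrank cyclotomicClosure E ≤ D →
        ∀ ξ : AlgebraicClosure ℚ, ξ ≠ 0 →
        (∀ F : IntermediateField ℚ (AlgebraicClosure ℚ), (∀ g ∈ Γ, (g : AlgebraicClosure ℚ) ∈ F) →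
          ∀ (r : ℕ) (σ : Fin r → (AlgebraicClosure ℚ ≃ₐ[F] AlgebraicClosure ℚ)) (e : Fin r → ℤ),
            IsQuotientOfSumsOfRadicals E k l (∏ i, σ i ξ ^ e i) →
            ¬ InDivisionGroup Γ (∏ i, σ i ξ ^ e i) →
            ∀ γ : AlgebraicClosure ℚ, InDivisionGroup Γ γ →
              bound A D (k + l) / (degree (divisionField Γ) (∏ i, σ i ξ ^ e i) : ℝ) ≤
                (∑ i, |(e i : ℝ)|) * NumberField.absLogHeight₁ (ξ / γ)) ∧
        (∀ F : IntermediateField ℚ (AlgebraicClosure ℚ), divisionField Γ ≤ F →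
          norm F ξ ∈ divisionField Γ ⊔ IntermediateField.adjoin ℚ {ξ} →
          IsQuotientOfSumsOfRadicals E k l (norm F ξ) → ¬ InDivisionGroup Γ (norm F ξ) →
          ∀ γ : AlgebraicClosure ℚ, InDivisionGroup Γ γ →
            bound A D (k + l) / (degree (divisionField Γ) ξ : ℝ) ≤
              NumberField.absLogHeight₁ (ξ / γ)) := by
  classical
  intro Γ hΓ
  obtain ⟨A, hA, hmain⟩ := key Γ hΓ
  refine ⟨A, hA, ?_⟩
  intro k l D E hE hD ξ hξ
  have hD0 : 0 < D := lt_of_lt_of_le Module.finrank_pos hD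
  refine ⟨?_, ?_⟩
  · intro F hF r σ e ⟨θ, θ', hθ, hθ', hQ, hquot⟩ hnd γ hγ
    rw [Pool.Agent.H58P.absLogHeight₁_eq, bound_eq]
    exact hmain k l D E hE hD F hF ξ hξ (Fin r) Finset.univ (fun i => (σ i).restrictScalars ℚ)
      (fun i _ x hx => (σ i).commutes ⟨x, hx⟩) e 1 _ ⟨1, one_pos, one_pow 1⟩
      (by rw [one_mul]; rfl) θ θ' hθ hθ' hQ hquot hnd γ hγ
  · intro F hLF hηL ⟨θ, θ', hθ, hθ', hQ, hquot⟩ hnd γ hγ
    rw [Pool.Agent.H58P.absLogHeight₁_eq, bound_eq]
    have hΓL : ∀ g ∈ Γ, (g : AlgebraicClosure ℚ) ∈ divisionField Γ := fun g hg =>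
      IntermediateField.subset_adjoin _ _ ⟨1, one_pos, g, hg, pow_one _⟩
    have hch : ∀ y : Qb, ∃ σ : Aut, y ∈ orb F ξ → Fix F σ ∧ σ ξ = y := by
      intro y
      by_cases hy : y ∈ orb F ξ
      · obtain ⟨σ, h1, h2⟩ := hy
        exact ⟨σ, fun _ => ⟨h1, h2⟩⟩
      · exact ⟨1, fun h => absurd h hy⟩
    choose σ hσ using hch
    have hmem : ∀ y, y ∈ (orb_finite F ξ).toFinset ↔ y ∈ orb F ξ := fun y =>
      Set.Finite.mem_toFinset _
    have h2 : norm F ξ = ((-1 : Qb) ^ (orb_finite F ξ).toFinset.card) *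
        ∏ y ∈ (orb_finite F ξ).toFinset, σ y ξ ^ ((fun _ : Qb => (1 : ℤ)) y) := by
      have h1 := minpoly_map_eq_oprod F ξ
      have h3 : norm F ξ = ((minpoly F ξ).map (algebraMap F Qb)).coeff 0 := by
        rw [Polynomial.coeff_map]
        rfl
      rw [h3, h1, Polynomial.coeff_zero_prod, ← Finset.prod_const, ← Finset.prod_mul_distrib]
      refine Finset.prod_congr rfl fun y hy => ?_
      rw [(hσ y ((hmem y).1 hy)).2]
      simp
    have h4 := hmain k l D E hE hD F (fun g hg => hLF (hΓL g hg)) ξ hξ Qb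
      (orb_finite F ξ).toFinset σ
      (fun y hy => (hσ y ((hmem y).1 hy)).1) (fun _ => 1)
      ((-1 : Qb) ^ (orb_finite F ξ).toFinset.card) (norm F ξ)
      ⟨2, two_pos, by rw [← pow_mul, mul_comm, pow_mul]; norm_num⟩ h2 θ θ' hθ hθ' hQ hquot hnd γ hγ
    have h5 : (∑ i ∈ (orb_finite F ξ).toFinset, |(((fun _ : Qb => (1 : ℤ)) i : ℤ) : ℝ)|) =
        ((orb F ξ).ncard : ℝ) := by
      rw [Finset.sum_const, Set.ncard_eq_toFinset_card _ (orb_finite F ξ)]
      simp
    rw [h5] at h4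
    have hηF : norm F ξ ∈ F := ((minpoly F ξ).coeff 0).2
    have h6 := card_mul_le (divisionField Γ) F hLF ξ (norm F ξ) hηF hηL
    have h7 : 0 < (orb (divisionField Γ) (norm F ξ)).ncard := orb_ncard_pos _ _
    have h8 : 0 < (orb (divisionField Γ) ξ).ncard := orb_ncard_pos _ _
    have h9 : ((minpoly (divF Γ) (norm F ξ)).natDegree : ℝ) =
        ((orb (divisionField Γ) (norm F ξ)).ncard : ℝ) := by
      rw [orb_ncard]
      rfl
    rw [h9] at h4
    have h10 : (degree (divisionField Γ) ξ : ℝ) = ((orb (divisionField Γ) ξ).ncard : ℝ) := by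
      rw [orb_ncard]
      rfl
    rw [h10]
    have h11 : (0 : ℝ) < ((orb (divisionField Γ) (norm F ξ)).ncard : ℝ) := by exact_mod_cast h7
    have h12 : (0 : ℝ) < ((orb (divisionField Γ) ξ).ncard : ℝ) := by exact_mod_cast h8
    rw [div_le_iff₀ h11] at h4
    rw [div_le_iff₀ h12]
    have h13 : ((orb (divisionField Γ) (norm F ξ)).ncard : ℝ) * ((orb F ξ).ncard : ℝ) ≤
        ((orb (divisionField Γ) ξ).ncard : ℝ) := by exact_mod_cast h6
    have h14 : 0 ≤ ht (ξ / γ) := Pool.Agent.H58R.ht_nonneg _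
    calc lowc A (D * B2 (k + l)) ≤ ((orb F ξ).ncard : ℝ) * ht (ξ / γ) *
          ((orb (divisionField Γ) (norm F ξ)).ncard : ℝ) := h4
      _ = ht (ξ / γ) * (((orb (divisionField Γ) (norm F ξ)).ncard : ℝ) *
          ((orb F ξ).ncard : ℝ)) := by ring
      _ ≤ ht (ξ / γ) * ((orb (divisionField Γ) ξ).ncard : ℝ) :=
          mul_le_mul_of_nonneg_left h13 h14

end Pool.Agent.Results.MP_f61260_nt.IntermediateNorms
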