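import Mathlib
import Pool.Agent.U923.RS.B

/-!
# Rémond's inequality in the strong form when reciprocity fails before the coefficients leave CM fields

Let `F` be any field of complex numbers, for instance `F = ℚ(Γ_div)` for a subgroup `Γ` of `ℂ*`, and
let `α ≠ 0` be an algebraic integer with minimal polynomial `X ^ d + a_(d-1) X ^ (d-1) + ... + a_0`
over `F`.

(1) Suppose that for some `k` with `0 < k ≤ d` the coefficients `a_(d-i)`, `0 < i < k`, are elements of
CM fields or totally real fields and satisfy `a_i = a_0 * conj a_(d-i)`, and that either `a_(d-k)` is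
such an element and `a_k ≠ a_0 * conj a_(d-k)`, or `a_k = 0 ≠ a_(d-k)`. Nothing is supposed about the
other coefficients. Then `h(α) ≥ log (5/2) / (4 d)`.

(2) In particular the inequality of Rémond holds for these `α`, for every subgroup `Γ` of `ℂ*` and
with the absolute constant `c = log (5/2) / 4`.

(3) In particular this is so if the least exponents `e₁, e₂ > 0` with `a_(e₁) ≠ 0` and
`a_(d-e₂) ≠ 0` are different, for arbitrary coefficients in `F`.

Method: for every embedding `σ` of the Galois closure of `ℚ(α)` the inequality of Smyth and Schinzel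
gives `M(f^σ) ^ 4 ≥ (5/2) |σ(a_0)| |σ(A)|` with one algebraic integer `A ≠ 0`; product over all `σ`.
-/

set_option autoImplicit false

open Polynomial ComplexConjugate

namespace Pool.Agent.Results.MP_f61260_nt.NonreciprocalCoefficients

/-- The absolute logarithmic Weil height of an algebraic integer. -/
noncomputable def height (α : ℂ) : ℝ :=
  Real.log ((minpoly ℤ α).map (Int.castRingHom ℂ)).mahlerMeasure / (minpoly ℤ α).natDegree

/-- On the conjugates of `z` complex conjugation is given by one rational polynomial (this is so for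
the elements of totally real fields and of CM fields). -/
def IsCM (z : ℂ) : Prop :=
  ∃ P : ℚ[X], ∀ w : ℂ, aeval w (minpoly ℚ z) = 0 → conj w = aeval w P

/-- The degree of `α` over `F`. -/
noncomputable def degree (F : IntermediateField ℚ ℂ) (α : ℂ) : ℕ := (minpoly F α).natDegree

/-- The coefficients of the minimal polynomial of `α` over `F`, as complex numbers. -/
noncomputable def coefficient (F : IntermediateField ℚ ℂ) (α : ℂ) (i : ℕ) : ℂ :=
  ((minpoly F α).coeff i : F)

/-- The minimal polynomial `X ^ d + a_(d-1) X ^ (d-1) + ... + a_0` of `α` over `F` is such that for some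
`k` with `0 < k ≤ d` and all `0 < i < k` the coefficient `a_(d-i)` is an element as above and
`a_i = a_0 * conj a_(d-i)`, and either `a_(d-k)` is such an element and
`a_k ≠ a_0 * conj a_(d-k)`, or `a_k = 0 ≠ a_(d-k)`. -/
def DepartsFromReciprocity (F : IntermediateField ℚ ℂ) (α : ℂ) : Prop :=
  ∃ k : ℕ, 0 < k ∧ k ≤ degree F α ∧
    (∀ i, 0 < i → i < k → IsCM (coefficient F α (degree F α - i)) ∧
      coefficient F α i = coefficient F α 0 * conj (coefficient F α (degree F α - i))) ∧
    ((IsCM (coefficient F α (degree F α - k)) ∧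
      coefficient F α k ≠ coefficient F α 0 * conj (coefficient F α (degree F α - k))) ∨
      (coefficient F α k = 0 ∧ coefficient F α (degree F α - k) ≠ 0))

/-- `e` is the least positive exponent with `a e ≠ 0`. -/
def IsFirstExponent (a : ℕ → ℂ) (e : ℕ) : Prop :=
  0 < e ∧ a e ≠ 0 ∧ ∀ i, 0 < i → i < e → a i = 0

/-- The division group `Γ_div` of `Γ`. -/
def divGroup (Γ : Subgroup ℂˣ) : Set ℂ :=
  {z : ℂ | z ≠ 0 ∧ ∃ n : ℕ, 1 ≤ n ∧ ∃ g ∈ Γ, (g : ℂ) = z ^ n}

/-- The field `ℚ(Γ_div)`. -/
noncomputable def divField (Γ : Subgroup ℂˣ) : IntermediateField ℚ ℂ :=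
  IntermediateField.adjoin ℚ (divGroup Γ)

theorem result :
    (∀ (F : IntermediateField ℚ ℂ) (α : ℂ), IsIntegral ℤ α → α ≠ 0 →
      DepartsFromReciprocity F α →
        Real.log (5 / 2) / 4 / (degree F α : ℝ) ≤ height α) ∧
    (∀ (Γ : Subgroup ℂˣ) (α : ℂ), IsIntegral ℤ α → α ≠ 0 →
      DepartsFromReciprocity (divField Γ) α →
        Real.log (5 / 2) / 4 / (degree (divField Γ) α : ℝ) ≤ height α) ∧
    (∀ (Γ : Subgroup ℂˣ) (α : ℂ), IsIntegral ℤ α → α ≠ 0 → ∀ e₁ e₂ : ℕ,
      IsFirstExponent (coefficient (divField Γ) α) e₁ →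
      IsFirstExponent (fun i => coefficient (divField Γ) α (degree (divField Γ) α - i)) e₂ →
      e₁ ≠ e₂ →
        Real.log (5 / 2) / 4 / (degree (divField Γ) α : ℝ) ≤ height α) := by
  have h1 : ∀ (F : IntermediateField ℚ ℂ) (α : ℂ), IsIntegral ℤ α → α ≠ 0 →
      DepartsFromReciprocity F α →
        Real.log (5 / 2) / 4 / (degree F α : ℝ) ≤ height α :=
    fun F α hα h0 h => U923.RS.main F hα h0 h
  refine ⟨h1, fun Γ α hα h0 h => h1 _ α hα h0 h, fun Γ α hα h0 e₁ e₂ he₁ he₂ hne => ?_⟩
  apply h1 _ α hα h0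
  set F := divField Γ with hF
  have hαF : IsIntegral F α := hα.tower_top
  have hz : ∀ i, coefficient F α (degree F α - i) = 0 →
      IsCM (coefficient F α (degree F α - i)) := by
    intro i hi
    rw [hi]
    exact U923.RS.isCM_zero
  obtain ⟨p1, q1, r1⟩ := he₁
  obtain ⟨p2, q2', r2'⟩ := he₂
  have q2 : coefficient F α (degree F α - e₂) ≠ 0 := q2'
  have r2 : ∀ i, 0 < i → i < e₂ → coefficient F α (degree F α - i) = 0 := r2'
  have hdp : 0 < degree F α := minpoly.natDegree_pos hαF
  have ha0 : coefficient F α 0 ≠ 0 := fun h =>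
    minpoly.coeff_zero_ne_zero hαF h0 ((map_eq_zero_iff _ (algebraMap F ℂ).injective).1 h)
  have hd : e₂ ≤ degree F α := by
    by_contra hcon
    have h2 := r2 (degree F α) hdp (by omega)
    rw [Nat.sub_self] at h2
    exact ha0 h2
  rcases lt_or_gt_of_ne hne with h | h
  · refine ⟨e₁, p1, by omega, fun i hi0 hi => ⟨hz i (r2 i hi0 (by omega)), ?_⟩, Or.inl ⟨?_, ?_⟩⟩
    · rw [r1 i hi0 hi, r2 i hi0 (by omega), map_zero, mul_zero]
    · exact hz _ (r2 e₁ p1 h)
    · rw [r2 e₁ p1 h, map_zero, mul_zero]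
      exact q1
  · refine ⟨e₂, p2, hd, fun i hi0 hi => ⟨hz i (r2 i hi0 hi), ?_⟩, Or.inr ⟨?_, ?_⟩⟩
    · rw [r1 i hi0 (by omega), r2 i hi0 hi, map_zero, mul_zero]
    · exact r1 e₂ p2 h
    · exact q2

end Pool.Agent.Results.MP_f61260_nt.NonreciprocalCoefficients
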