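import Mathlib
import Pool.Agent.U218.PQ.S3

set_option autoImplicit false

/-!
# Rémond's inequality for numbers with a small abelian part

All fields are subfields of `AlgebraicClosure ℚ`; subgroups of the multiplicative group are
subgroups of the unit group of `AlgebraicClosure ℚ`.

Let `K` be a number field, `m ≥ 1` and let `L = K(μ_∞, (K*)^{1/m})`. There is a constant `A`,
depending only on `K` and `m`, with the following property. Let `Γ` be any subgroup of `L*` (of finite
or infinite rank). Then `L(Γ_div)` is an abelian extension of `L`, and for every algebraic integer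
`α`, not `0` and not a root of unity,

`h(α) ≥ 1 / (A b D (1 + log (b D)) ^ A)`, where `D = D_Γ(α) = [ℚ(Γ_div, α) : ℚ(Γ_div)]` and
`b = [L(α) ∩ L(Γ_div) : L]`.

So Rémond's inequality `h(α) ≥ c / D_Γ(α)` holds up to a power of `log D_Γ(α)`, with constants which do
not depend on `Γ`, for all `α` such that `L(α)` contains no abelian extension of `L` besides `L`. The
number `b` is also at most the order of the abelianization of `Gal(N/L)`, for every finite Galois
extension `N` of `L` which contains `α`.

Method. `L(Γ_div)` is an abelian extension of `L`, so the degree of `α` over `L` is at most `b D`.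
The field `L` is contained in the compositum `F ℚ^ab` of `ℚ^ab` with a Galois extension `F` of `ℚ`
of finite exponent (which is infinite and not abelian in general), and the height is bounded from
below by the relative Dobrowolski theorem over `F ℚ^ab`.
-/

namespace Pool.Agent.Results.MP_f61260_nt.SmallAbelianPart

/-- `β` lies in the division group of `Γ`: a positive power of `β` is an element of `Γ` -/
def InDivisionGroup (Γ : Subgroup (AlgebraicClosure ℚ)ˣ) (β : AlgebraicClosure ℚ) : Prop :=
  ∃ n : ℕ, 0 < n ∧ ∃ g ∈ Γ, β ^ n = (g : AlgebraicClosure ℚ)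

/-- `ℚ(Γ_div)`, the field generated by the division group of `Γ` -/
noncomputable def divisionField (Γ : Subgroup (AlgebraicClosure ℚ)ˣ) :
    IntermediateField ℚ (AlgebraicClosure ℚ) :=
  IntermediateField.adjoin ℚ {y | InDivisionGroup Γ y}

/-- the field generated by the numbers `g` such that `ζ g ^ m` lies in `K` for some root of unity
`ζ`, that is, `K(μ_∞, (K*)^{1/m})` -/
noncomputable def radicalField (K : IntermediateField ℚ (AlgebraicClosure ℚ)) (m : ℕ) :
    IntermediateField ℚ (AlgebraicClosure ℚ) :=
  IntermediateField.adjoin ℚ {g | ∃ (ζ : AlgebraicClosure ℚ) (r : ℕ), 0 < r ∧ ζ ^ r = 1 ∧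
    ζ * g ^ m ∈ K}

/-- the degree of `α` over the field `F` -/
noncomputable def degree (F : IntermediateField ℚ (AlgebraicClosure ℚ))
    (α : AlgebraicClosure ℚ) : ℕ :=
  (minpoly F α).natDegree

/-- the order of the abelianization of the group of automorphisms of `N` over `L` -/
noncomputable def abelianPart {L : IntermediateField ℚ (AlgebraicClosure ℚ)}
    (N : IntermediateField L (AlgebraicClosure ℚ)) : ℕ :=
  Nat.card (Abelianization (N ≃ₐ[L] N))

/-- `T` is an abelian extension of `L`: it is Galois with a commutative Galois group -/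
def IsAbelianExtension {L : IntermediateField ℚ (AlgebraicClosure ℚ)}
    (T : IntermediateField L (AlgebraicClosure ℚ)) : Prop :=
  IsGalois L T ∧ ∀ σ τ : T ≃ₐ[L] T, σ * τ = τ * σ

/-- `L(Γ_div)`, the field generated over `L` by the division group of `Γ` -/
noncomputable def divisionFieldOver (L : IntermediateField ℚ (AlgebraicClosure ℚ))
    (Γ : Subgroup (AlgebraicClosure ℚ)ˣ) : IntermediateField L (AlgebraicClosure ℚ) :=
  IntermediateField.adjoin L {y | InDivisionGroup Γ y}

/-- `L(α)` -/
noncomputable def simpleField (L : IntermediateField ℚ (AlgebraicClosure ℚ))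
    (α : AlgebraicClosure ℚ) : IntermediateField L (AlgebraicClosure ℚ) :=
  IntermediateField.adjoin L {α}

/-- `[L(α) ∩ L(Γ_div) : L]` -/
noncomputable def commonDegree (L : IntermediateField ℚ (AlgebraicClosure ℚ))
    (Γ : Subgroup (AlgebraicClosure ℚ)ˣ) (α : AlgebraicClosure ℚ) : ℕ :=
  Module.finrank L (↥(simpleField L α ⊓ divisionFieldOver L Γ))

/-- `L(α)` contains no abelian extension of `L` besides `L` -/
def NoAbelianSubextension (L : IntermediateField ℚ (AlgebraicClosure ℚ))
    (α : AlgebraicClosure ℚ) : Prop :=
  ∀ T : IntermediateField L (AlgebraicClosure ℚ), T ≤ simpleField L α →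
    IsAbelianExtension T → T = ⊥

/-- **Rémond's inequality for numbers with a small abelian part.** -/
theorem result (K : IntermediateField ℚ (AlgebraicClosure ℚ)) (hK : FiniteDimensional ℚ K)
    (m : ℕ) (hm : 0 < m) :
    ∃ A : ℕ, 0 < A ∧ ∀ Γ : Subgroup (AlgebraicClosure ℚ)ˣ,
      (∀ g ∈ Γ, (g : AlgebraicClosure ℚ) ∈ radicalField K m) →
      IsAbelianExtension (divisionFieldOver (radicalField K m) Γ) ∧
      ∀ α : AlgebraicClosure ℚ,
        (∀ N : IntermediateField (radicalField K m) (AlgebraicClosure ℚ),
          FiniteDimensional (radicalField K m) N → IsGalois (radicalField K m) N → α ∈ N →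
          commonDegree (radicalField K m) Γ α ≤ abelianPart N) ∧
        (IsIntegral ℤ α → α ≠ 0 → (∀ r : ℕ, 0 < r → α ^ r ≠ 1) →
          1 / ((A : ℝ) * commonDegree (radicalField K m) Γ α * degree (divisionField Γ) α *
            (1 + Real.log (commonDegree (radicalField K m) Γ α *
              degree (divisionField Γ) α)) ^ A) ≤ NumberField.absLogHeight₁ α ∧
          (NoAbelianSubextension (radicalField K m) α →
            1 / ((A : ℝ) * degree (divisionField Γ) α *
              (1 + Real.log (degree (divisionField Γ) α)) ^ A) ≤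
                NumberField.absLogHeight₁ α)) := by
  have := hK
  obtain ⟨A, hA, h⟩ := Pool.Agent.U218.PQ.main_div K hm
  refine ⟨A, hA, fun Γ hΓ => ?_⟩
  obtain ⟨h1, h2⟩ := h Γ hΓ
  refine ⟨h1, fun α => ?_⟩
  obtain ⟨h3, h4⟩ := h2 α
  refine ⟨fun N hN1 hN2 hα => h3 N hN1 hN2.to_normal hα, fun hint h0 hr => ?_⟩
  obtain ⟨h5, h6⟩ := h4 hint h0 hr
  exact ⟨h5 _ _ rfl rfl, fun hno => h6 hno _ rfl⟩

end Pool.Agent.Results.MP_f61260_nt.SmallAbelianPart
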